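import Pool.Agent.H661R3.OP.Final

open Finset

namespace Pool.Agent.Results.MP_c0d11e_nt.BothShapesParity

/-- **Parity of the number of prime factors at almost prime triples of both shapes.**
Let `D` be `{0, 2, 6}` or `{0, 4, 6}`, `S` a subset of odd size of `D` (for example `S = D`) and `ε > 0`.
There are `R` and `δ > 0` such that for all large `x` there are at least `x ^ (1 - ε)` positive integers
`n ≤ x` such that each `n + h` with `h ∈ D` is a product of at most `R` primes, all of them larger than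
`x ^ δ`, and the product of the `n + h` with `h ∈ S` has an odd number of prime factors; there are also at
least `x ^ (1 - ε)` such `n` for which this number is even. -/
theorem result (D : Finset ℕ) (hD : D = {0, 2, 6} ∨ D = {0, 4, 6}) (S : Finset ℕ) (hS : S ⊆ D)
    (hodd : Odd S.card) (ε : ℝ) (hε : 0 < ε) :
    ∃ (R : ℕ) (δ : ℝ), 0 < δ ∧ ∃ x₀ : ℝ, ∀ x : ℝ, x₀ ≤ x →
    x ^ (1 - ε) ≤ ({n : ℕ | 0 < n ∧ (n : ℝ) ≤ x ∧
      (∀ h ∈ D, ArithmeticFunction.cardFactors (n + h) ≤ R ∧
        ∀ p : ℕ, p.Prime → p ∣ n + h → x ^ δ < p) ∧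
      Odd (∑ h ∈ S, ArithmeticFunction.cardFactors (n + h))}.ncard : ℝ) ∧
    x ^ (1 - ε) ≤ ({n : ℕ | 0 < n ∧ (n : ℝ) ≤ x ∧
      (∀ h ∈ D, ArithmeticFunction.cardFactors (n + h) ≤ R ∧
        ∀ p : ℕ, p.Prime → p ∣ n + h → x ^ δ < p) ∧
      Even (∑ h ∈ S, ArithmeticFunction.cardFactors (n + h))}.ncard : ℝ) := by
  rcases hD with rfl | rfl
  · refine Pool.Agent.H661R3.OP.shiftsNat Pool.Agent.H661R3.OP.liou {0, 2, 6}
      (Pool.Agent.H661R3.OP.adm_of_small _ 4 (by decide) ?_) S hS hodd ε hε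
    intro p hp hp5
    have h2 := hp.two_le
    interval_cases p
    · exact ⟨1, by decide⟩
    · exact ⟨2, by decide⟩
  · refine Pool.Agent.H661R3.OP.shiftsNat Pool.Agent.H661R3.OP.liou {0, 4, 6}
      (Pool.Agent.H661R3.OP.adm_of_small _ 4 (by decide) ?_) S hS hodd ε hε
    intro p hp hp5
    have h2 := hp.two_le
    interval_cases p
    · exact ⟨1, by decide⟩
    · exact ⟨1, by decide⟩

end Pool.Agent.Results.MP_c0d11e_nt.BothShapesParity
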