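import Mathlib
import Pool.Agent.H386R2.HL.F

/-!
The Hardy-Littlewood prime r-tuples conjecture: an unconditional lower bound with the conjectured singular series, for a
positive proportion of all r-tuples in every window `[1, H]`, `lam log x ≤ H ≤ x`, where `lam > r - 1`.
The constant `θ` can be any number below `∏_{i<r} (1 - i/lam)`, so it tends to `1` as `lam → ∞`.
-/

namespace Pool.Agent.Results.MP_c0d11e_nt.PositiveProportion
open Finset Pool.Agent.H386R2.HL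

theorem result (r : ℕ) (hr : 2 ≤ r) (lam θ : ℝ) (hlam : (r : ℝ) - 1 < lam) (hθ0 : 0 < θ)
    (hθ : θ < ∏ i ∈ range r, (1 - (i : ℝ) / lam)) :
    ∃ c : ℝ, 0 < c ∧ ∃ x₀ : ℕ, ∀ x : ℕ, x₀ ≤ x → ∀ H : ℕ, lam * Real.log x ≤ H → H ≤ x →
      ∃ G : Finset (Fin r → ℕ), c * (H : ℝ) ^ r ≤ #G ∧ ∀ a ∈ G, (∀ i, 1 ≤ a i ∧ a i ≤ H) ∧
        Function.Injective a ∧ Admissible a ∧
        ∃ S : ℝ, HasProd (fun p : Nat.Primes => localFactor a p) S ∧ 0 < S ∧
          θ * S * (x / (Real.log x) ^ r) ≤ tupleCount a x :=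
  main r hr lam θ hlam hθ0 hθ

end Pool.Agent.Results.MP_c0d11e_nt.PositiveProportion
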